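import Pool.Agent.U554.TD.Per

/-!
# The Gross-Deligne conjecture, dimension by dimension, and the cubics `T(x, y, z) = 1`

Let `k` be the field of the algebraic numbers.

* `𝓢` is the semisimple abelian category of the pure polarizable Hodge-de Rham structures `(H, H_dR, ρ)` of geometric
  origin of weight `0` (`H` a rational Hodge structure, `H_dR` a vector space over `k`, `ρ` the comparison isomorphism
  over the complex numbers), and `O b m X = gr^W_0 H_{m + 2 b}(X)(-b)` is the pure part of weight `0` of the Borel-Moore homology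
  of a separated scheme `X` of finite type over `k`. If `X` is smooth and projective of pure dimension `n`, then
  `O b 0 X = H^{2 i}(X)(i)`, `i = n - b`.
* An admissible triple `(H, F, ι)` in `H^{2 i}(X)` is, after the Tate twist, the same as a direct factor `R` of
  `H^{2 i}(X)(i)` in `𝓢` with an embedding of `F` into its endomorphisms, `[F : ℚ] = dim R`
  (`T : Per.Periods 𝓢`); the Hodge function is `p(λ) - i`, the period is divided by `(2πi)^i`, and the
  relation of the problem is `T.Relation`. (For `F = ℚ` it says that the period is algebraic.) Odd degrees: tensor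
  square, in `X × X`.
* `T.Holds M`: the relation for all admissible triples in `M`.

Let `C` be a trilinear form in three blocks `x`, `y`, `z` of `a₁`, `a₂`, `a₃` variables.

* `bilS C` is the closed subscheme `Z_C` of `𝔸^(a₂ + a₃)` given by the `a₁` bilinear equations
  `∂C/∂x_i (y, z) = 0`;
* `hypS C` is the smooth affine cubic hypersurface `Y_C : C(x, y, z) = 1` of dimension
  `n = a₁ + a₂ + a₃ - 1`; `O (n - j) 1 (hypS C)` is the pure part of weight `0` of `H^{2 j - 1}(Y_C)(j)`.

The known facts which are used are in `IsPureTheory`, `Per.Periods.Isotypic`, `ArtinHave` (the structures of dimension zero) and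
`QuarticsHave` (`K3` surfaces with complex multiplication: Kuga-Satake, Deligne, Anderson).
-/

set_option autoImplicit false

open CategoryTheory AlgebraicGeometry MvPolynomial Pool.Agent.Y116.UV Pool.Agent.U554.TW Pool.Agent.U554.TD
  Pool.Agent.U483.GU

universe v u

namespace Pool.Agent.Results.MP_b23d8d_ag.CubicsByDimension

/-- **The Gross-Deligne conjecture, dimension by dimension, and the cubics `C(x, y, z) = 1`.**

(A) If two of the three blocks of `C` have at most `4` variables (the third one is arbitrary), or if one block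
has at most `3` variables, then the relation of Gross and Deligne holds for all admissible triples in
`gr^W_0 H_{2 b}(Z_C)(-b)`, for all `b`, and in `gr^W_0 H^{2 j - 1}(Y_C)(j)`, for all `j ≥ 1`.

(B) Let `d ≥ 1` and let `s` be any number. The following are equivalent, and all hold for `d = 1`:

1. (`d = 1`, or) the relation holds for all admissible triples in the `H^{2 i}(V)(i)`, `V` smooth projective of dimension at
   most `d`;
2. the relation holds for all admissible triples in the `gr^W_0 H_{2 b}(X)(-b)`, `X` separated of finite type of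
   dimension at most `d`;
3. the same for all `Z_C` with a block of at most `d + 2` variables, and for all closed subschemes of affine
   spaces which are given by equations with `t_1, …, t_c` terms, `∑ max(t_i - 2, 0) ≤ d`;
4. the same in `gr^W_0 H^{2 j - 1}(Y_C)(j)` for all `j ≥ 1` and all `C` with a block of at most `d + 2`
   variables;
5. the same for all `C` with exactly `d + 2` variables `y` and all `j ≥ 1` with `j ≥ s`. -/
theorem result {𝓢 : Type u} [Category.{v} 𝓢] [Abelian 𝓢] (T : Per.Periods 𝓢) (hT : T.Isotypic)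
    {k : Type} [Field k] [CharZero k] [IsAlgClosed k] [Algebra.IsAlgebraic ℚ k]
    (O : ℤ → ℤ → Sch k → 𝓢) (hO : IsPureTheory O) (hA : ArtinHave T.Holds O) (hq : QuarticsHave T.Holds O) :
    (∀ (a₁ a₂ a₃ : ℕ) (C : Fin a₁ → Fin a₂ → Fin a₃ → k),
      OneBlock 3 a₁ a₂ a₃ ∨ TwoBlocks 4 4 a₁ a₂ a₃ →
      AllWeights T.Holds O (bilS C) ∧ ∀ j : ℕ, 1 ≤ j → T.Holds (O (a₁ + a₂ + a₃ - 1 - j) 1 (hypS C))) ∧
    ∀ (d : ℕ), 1 ≤ d → ∀ s : ℕ, List.TFAE [
      d = 1 ∨ ∀ V : Sch k, SmoothProjective V → topologicalKrullDim V.left ≤ d → AllWeights T.Holds O V,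
      ∀ X : Sch k, FT True X → topologicalKrullDim X.left ≤ d → AllWeights T.Holds O X,
      (∀ (a₁ a₂ a₃ : ℕ) (C : Fin a₁ → Fin a₂ → Fin a₃ → k), OneBlock (d + 2) a₁ a₂ a₃ →
        AllWeights T.Holds O (bilS C)) ∧
      ∀ (n : ℕ) (G : Finset (MvPolynomial (Fin n) k)), ∑ g ∈ G, (g.support.card - 2) ≤ d →
        AllWeights T.Holds O (aff k (MvPolynomial (Fin n) k ⧸ Ideal.span (G : Set (MvPolynomial (Fin n) k)))),
      ∀ (a₁ a₂ a₃ : ℕ) (C : Fin a₁ → Fin a₂ → Fin a₃ → k), OneBlock (d + 2) a₁ a₂ a₃ →
        ∀ j : ℕ, 1 ≤ j → T.Holds (O (a₁ + a₂ + a₃ - 1 - j) 1 (hypS C)),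
      ∀ (a₁ a₃ : ℕ) (C : Fin a₁ → Fin (d + 2) → Fin a₃ → k), ∀ j : ℕ, s ≤ j → 1 ≤ j →
        T.Holds (O (a₁ + (d + 2) + a₃ - 1 - j) 1 (hypS C))] :=
  have hP := T.isAdditive hT
  ⟨fun _ _ _ C ha => add_small hP hO hA hq C ha, fun d hd s => add_tfae hP hO hA d hd s⟩

end Pool.Agent.Results.MP_b23d8d_ag.CubicsByDimension
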