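import Mathlib

/-!
# The Gross-Deligne conjecture is its special case of Hodge classes

Let `F ≠ ℚ` be an abelian number field of conductor `d`.  The conjecture for `F` says that the periods of every
admissible triple `(H, F, ι)`, `H ⊆ H^m(X, ℚ)`, are the products of values of the gamma function prescribed by the
Hodge function `p`, up to algebraic factors.

Theorem.  For every `F ≠ ℚ` the following are equivalent:
1. the Gross-Deligne conjecture (Q1) for all admissible triples over `F` (all `X`, `m`, `ι`, `ε`, `λ`);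
2. if `H ⊆ H^{2k}(X, ℚ)` consists of Hodge classes, that is `p = k` is constant, then the periods of `H` are
   algebraic multiples of `π ^ k` (as they are if these classes are algebraic);
3. the periods of an admissible triple over `F` depend only on `m` and on the function `p`, up to algebraic factors.

In (2) no values of the gamma function occur.

Proof.  Let `H` be of weight `m` with Hodge function `p`.  If `F` is totally real, then `p = m / 2`.  If `F` is a CM
field, there are `m` CM types `Ψ_i` of `F` such that `p + ∑ 1_{Ψ_i} = m` is constant (proved here for all `p` with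
`0 ≤ p` and `p(λ) + p(-λ) = m`).  Let `A_i` be an abelian variety with complex multiplication of type `Ψ_i`.  The
tensor product of `H` and all `H¹(A_i)` over `F` is an admissible triple in the cohomology of `X × ∏ A_i` of weight
`2 m` with Hodge function `m`, and its periods are the products of the periods of the factors.  The periods of the
`A_i` are known by Anderson's theorem.  By the theorem of Koblitz and Ogus and the reflection formula (proved here) all
gamma products for the constant Hodge function `k` are algebraic multiples of `π ^ k`.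
-/

set_option autoImplicit false

namespace Pool.Agent.Results.MP_b23d8d_ag.HodgeClassCase

open Finset

/-- `x` and `y` are not zero and `x / y` is an algebraic number. -/
def Sim (x y : ℂ) : Prop := x ≠ 0 ∧ y ≠ 0 ∧ IsAlgebraic ℚ (x / y)

/-- An abelian number field `F` of conductor `d`: the subfield of `ℚ(μ_d)` fixed by the subgroup `U` of `(ℤ/d)ˣ`,
which is not contained in `ℚ(μ_e)` for a proper divisor `e` of `d`. The embeddings of `F` are the classes of
`(ℤ/d)ˣ` modulo `U`. (`F = ℚ` if and only if `d = 1`.) -/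
structure AbField where
  d : ℕ
  pos : 0 < d
  U : Subgroup (ZMod d)ˣ
  conductor : ∀ (e : ℕ) (h : e ∣ d), e ≠ d → ∃ x : (ZMod d)ˣ, ZMod.unitsMap h x = 1 ∧ x ∉ U

instance (F : AbField) : NeZero F.d := ⟨F.pos.ne'⟩

/-- The product of the `Γ(1 - a/d) ^ ε(a λ⁻¹)` over all `0 < a < d`. -/
noncomputable def gammaProd (d : ℕ) [NeZero d] (ε : ZMod d → ℚ) (l : (ZMod d)ˣ) : ℝ :=
  ∏ a ∈ univ.filter (fun a : ZMod d => a ≠ 0),
    Real.Gamma (1 - (a.val : ℝ) / d) ^ ((ε (a * ((l⁻¹ : (ZMod d)ˣ) : ZMod d)) : ℚ) : ℝ)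

/-- `ε` is one of the functions `ℤ/d → ℚ` which belong to the Hodge function `p`:
`d p(λ) = ∑_{0 < a < d} ε(a) ⟨λ a⟩` for all `λ`. -/
def IsEps (d : ℕ) [NeZero d] (p : (ZMod d)ˣ → ℤ) (ε : ZMod d → ℚ) : Prop :=
  ∀ l : (ZMod d)ˣ, (d : ℚ) * (p l : ℚ) =
    ∑ a ∈ univ.filter (fun a : ZMod d => a ≠ 0), ε a * ((((l : ZMod d) * a).val : ℕ) : ℚ)

/-- A CM type of `F`: a set of embeddings of `F` (classes of `(ℤ/d)ˣ` modulo `U`) which contains exactly one of any
two complex conjugate embeddings `λ`, `-λ`. -/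
def IsCMType (F : AbField) (Φ : Set (ZMod F.d)ˣ) : Prop :=
  (∀ l, ∀ u ∈ F.U, l * u ∈ Φ ↔ l ∈ Φ) ∧ ∀ l, l ∈ Φ ↔ -l ∉ Φ

/-- The data: the admissible triples `(H, F, ι)` in the cohomology of smooth projective varieties over `ℚ̄`, their
weights `m`, their Hodge functions `p(λ)` and (representatives of) their periods `P_λ(H)`. -/
structure Periods where
  Tri : AbField → Type
  wt : {F : AbField} → Tri F → ℕ
  p : {F : AbField} → Tri F → (ZMod F.d)ˣ → ℤ
  P : {F : AbField} → Tri F → (ZMod F.d)ˣ → ℂ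

/-- The known facts which are used. -/
structure Facts (T : Periods) : Prop where
  /-- the periods are not zero -/
  ne_zero : ∀ {F : AbField} (t : T.Tri F) l, T.P t l ≠ 0
  /-- the Hodge function: `0 ≤ p(λ)`, `p(λ) + p(-λ) = m`, and `p(λ)` depends on the embedding of `F` only -/
  nonneg : ∀ {F : AbField} (t : T.Tri F) l, 0 ≤ T.p t l
  hodge : ∀ {F : AbField} (t : T.Tri F) l, T.p t l + T.p t (-l) = T.wt t
  inv : ∀ {F : AbField} (t : T.Tri F) l, ∀ u ∈ F.U, T.p t (l * u) = T.p t l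
  /-- `H^0(X)` has algebraic periods -/
  zero : ∀ {F : AbField} (t : T.Tri F), T.wt t = 0 → ∀ l, Sim (T.P t l) 1
  /-- the tensor product over `F`, in the cohomology of `X × X'` -/
  tensor : ∀ {F : AbField} (t t' : T.Tri F), ∃ s : T.Tri F, T.wt s = T.wt t + T.wt t' ∧
    (∀ l, T.p s l = T.p t l + T.p t' l) ∧ ∀ l, Sim (T.P s l) (T.P t l * T.P t' l)
  /-- `H²` of a power of the projective line, with any action of `F` on the algebraic classes: the period is `2πi` -/
  line : ∀ F : AbField, 1 < F.d → ∃ t : T.Tri F, T.wt t = 2 ∧ (∀ l, T.p t l = 1) ∧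
    ∀ l, Sim (T.P t l) (Real.pi : ℝ)
  /-- Anderson's theorem for `H¹` of the abelian varieties with complex multiplication of type `Φ` -/
  anderson : ∀ (F : AbField) (Φ : Set (ZMod F.d)ˣ), IsCMType F Φ → ∃ t : T.Tri F, T.wt t = 1 ∧
    (∀ l, T.p t l = Set.indicator Φ 1 l) ∧
    ∀ ε, IsEps F.d (T.p t) ε → ∀ l, Sim (T.P t l) (gammaProd F.d ε l : ℝ)
  /-- the functions `ε` of the problem exist, if `F ≠ ℚ` -/
  exists_eps : ∀ {F : AbField}, 1 < F.d → ∀ t : T.Tri F, ∃ ε, IsEps F.d (T.p t) ε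
  /-- the theorem of Koblitz and Ogus -/
  koblitz_ogus : ∀ (F : AbField) (ε : ZMod F.d → ℚ), IsEps F.d 0 ε →
    ∀ l, IsAlgebraic ℚ ((gammaProd F.d ε l : ℝ) : ℂ)

/-- The Gross-Deligne conjecture (Q1) for the admissible triples over `F`. -/
def GrossDeligne (T : Periods) (F : AbField) : Prop :=
  ∀ (t : T.Tri F) (ε : ZMod F.d → ℚ), IsEps F.d (T.p t) ε →
    ∀ l, Sim (T.P t l) (gammaProd F.d ε l : ℝ)

/-- The periods of the triples over `F` which consist of Hodge classes of degree `2 k` are algebraic multiples of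
`π ^ k`. -/
def HodgeClasses (T : Periods) (F : AbField) : Prop :=
  ∀ (t : T.Tri F) (k : ℕ), T.wt t = 2 * k → (∀ l, T.p t l = k) →
    ∀ l, Sim (T.P t l) ((Real.pi ^ k : ℝ) : ℂ)

/-- The periods of the triples over `F` depend only on the weight and on the Hodge function. -/
def OnlyHodge (T : Periods) (F : AbField) : Prop :=
  ∀ t t' : T.Tri F, T.wt t = T.wt t' → (∀ l, T.p t l = T.p t' l) → ∀ l, Sim (T.P t l) (T.P t' l)

/-! ### The relation `Sim` -/

lemma Sim.refl {x : ℂ} (h : x ≠ 0) : Sim x x := ⟨h, h, by rw [div_self h]; exact isAlgebraic_one⟩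

lemma Sim.symm {x y : ℂ} (h : Sim x y) : Sim y x :=
  ⟨h.2.1, h.1, by rw [← inv_div]; exact h.2.2.inv⟩

lemma Sim.trans {x y z : ℂ} (h : Sim x y) (h' : Sim y z) : Sim x z :=
  ⟨h.1, h'.2.1, by
    have e : x / z = (x / y) * (y / z) := by
      have := h.2.1; have := h'.2.1; field_simp
    rw [e]; exact h.2.2.mul h'.2.2⟩

lemma Sim.mul {x y z w : ℂ} (h : Sim x y) (h' : Sim z w) : Sim (x * z) (y * w) :=
  ⟨mul_ne_zero h.1 h'.1, mul_ne_zero h.2.1 h'.2.1, by
    rw [mul_div_mul_comm]; exact h.2.2.mul h'.2.2⟩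

lemma Sim.cancel {x y z : ℂ} (hx : x ≠ 0) (hy : y ≠ 0) (h : Sim (x * z) (y * z)) : Sim x y := by
  have hz : z ≠ 0 := right_ne_zero_of_mul h.1
  refine ⟨hx, hy, ?_⟩
  have h2 := h.2.2
  rwa [mul_div_mul_right _ _ hz] at h2

/-! ### Gamma products -/

section Gamma

variable {d : ℕ} [NeZero d]

lemma gamma_pos (a : ZMod d) : 0 < Real.Gamma (1 - (a.val : ℝ) / d) := by
  apply Real.Gamma_pos_of_pos
  have hd : (0 : ℝ) < d := by exact_mod_cast Nat.pos_of_ne_zero (NeZero.ne d)
  have : (a.val : ℝ) < d := by exact_mod_cast ZMod.val_lt a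
  rw [sub_pos, div_lt_one hd]
  exact this

lemma gammaProd_pos (ε : ZMod d → ℚ) (l : (ZMod d)ˣ) : 0 < gammaProd d ε l :=
  prod_pos fun a _ => Real.rpow_pos_of_pos (gamma_pos a) _

lemma gammaProd_ne (ε : ZMod d → ℚ) (l : (ZMod d)ˣ) : ((gammaProd d ε l : ℝ) : ℂ) ≠ 0 :=
  Complex.ofReal_ne_zero.mpr (gammaProd_pos ε l).ne'

lemma gammaProd_add (ε ε' : ZMod d → ℚ) (l : (ZMod d)ˣ) :
    gammaProd d (ε + ε') l = gammaProd d ε l * gammaProd d ε' l := by
  unfold gammaProd
  rw [← prod_mul_distrib]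
  refine prod_congr rfl fun a _ => ?_
  rw [← Real.rpow_add (gamma_pos a)]
  congr 1
  push_cast [Pi.add_apply]
  ring

lemma gammaProd_zero (l : (ZMod d)ˣ) : gammaProd d 0 l = 1 := by
  unfold gammaProd
  refine prod_eq_one fun a _ => ?_
  simp

lemma isEps_add {p p' : (ZMod d)ˣ → ℤ} {ε ε' : ZMod d → ℚ} (h : IsEps d p ε) (h' : IsEps d p' ε') :
    IsEps d (p + p') (ε + ε') := by
  intro l
  have h1 := h l
  have h2 := h' l
  simp only [Pi.add_apply, add_mul, sum_add_distrib]
  push_cast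
  rw [mul_add, h1, h2]

lemma isEps_neg {p : (ZMod d)ˣ → ℤ} {ε : ZMod d → ℚ} (h : IsEps d p ε) : IsEps d (-p) (-ε) := by
  intro l
  have h1 := h l
  simp only [Pi.neg_apply, neg_mul, sum_neg_distrib]
  push_cast
  rw [mul_neg, h1]

lemma isEps_zero : IsEps d (0 : (ZMod d)ˣ → ℤ) 0 := by
  intro l
  simp

/-- the function `k` at the unit `u` and `0` elsewhere -/
def delta (k : ℕ) (u : (ZMod d)ˣ) (a : ZMod d) : ℚ := if a = (u : ZMod d) then k else 0

omit [NeZero d] in
lemma unit_ne (hd : 1 < d) (u : (ZMod d)ˣ) : (u : ZMod d) ≠ 0 := by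
  have : Fact (1 < d) := ⟨hd⟩
  exact u.ne_zero

lemma gammaProd_delta (hd : 1 < d) (k : ℕ) (u l : (ZMod d)ˣ) :
    gammaProd d (delta k u) l = Real.Gamma (1 - ((((u * l : (ZMod d)ˣ) : ZMod d).val : ℕ) : ℝ) / d) ^ k := by
  unfold gammaProd
  rw [prod_eq_single ((u * l : (ZMod d)ˣ) : ZMod d)]
  · have e : ((u * l : (ZMod d)ˣ) : ZMod d) * ((l⁻¹ : (ZMod d)ˣ) : ZMod d) = (u : ZMod d) := by
      rw [← Units.val_mul, mul_inv_cancel_right]
    rw [e, delta, if_pos rfl]
    push_cast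
    rw [Real.rpow_natCast]
  · intro a _ hne
    have : a * ((l⁻¹ : (ZMod d)ˣ) : ZMod d) ≠ (u : ZMod d) := by
      intro h
      apply hne
      have h2 : a = a * ((l⁻¹ : (ZMod d)ˣ) : ZMod d) * (l : ZMod d) := by
        rw [mul_assoc, ← Units.val_mul, inv_mul_cancel, Units.val_one, mul_one]
      rw [h2, h, ← Units.val_mul]
    rw [delta, if_neg this]
    simp
  · intro h
    exact absurd (mem_filter.mpr ⟨mem_univ (((u * l : (ZMod d)ˣ)) : ZMod d), unit_ne hd (u * l)⟩) h

lemma val_neg_unit (hd : 1 < d) (l : (ZMod d)ˣ) :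
    ((((-l : (ZMod d)ˣ) : ZMod d).val : ℕ) : ℚ) = d - (((l : ZMod d).val : ℕ) : ℚ) := by
  have h0 := unit_ne hd l
  rw [Units.val_neg, ZMod.neg_val, if_neg h0, Nat.cast_sub (ZMod.val_lt _).le]

lemma isEps_const (hd : 1 < d) (k : ℕ) :
    IsEps d (fun _ => (k : ℤ)) (delta k 1 + delta k (-1)) := by
  intro l
  have key : ∀ u : (ZMod d)ˣ, ∑ a ∈ univ.filter (fun a : ZMod d => a ≠ 0),
      delta k u a * ((((l : ZMod d) * a).val : ℕ) : ℚ) =
      k * (((((l * u : (ZMod d)ˣ) : ZMod d)).val : ℕ) : ℚ) := by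
    intro u
    rw [sum_eq_single (u : ZMod d)]
    · rw [delta, if_pos rfl, Units.val_mul]
    · intro a _ hne
      rw [delta, if_neg hne, zero_mul]
    · intro h
      exact absurd (mem_filter.mpr ⟨mem_univ (u : ZMod d), unit_ne hd u⟩) h
  simp only [Pi.add_apply, add_mul, sum_add_distrib]
  rw [key, key, mul_one, mul_neg_one, val_neg_unit hd]
  push_cast
  ring

lemma sim_const (hd : 1 < d) (k : ℕ) (l : (ZMod d)ˣ) :
    Sim ((gammaProd d (delta k 1 + delta k (-1)) l : ℝ) : ℂ) ((Real.pi ^ k : ℝ) : ℂ) := by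
  refine ⟨gammaProd_ne _ _, Complex.ofReal_ne_zero.mpr (pow_ne_zero _ Real.pi_ne_zero), ?_⟩
  have hd0 : (0 : ℝ) < d := by exact_mod_cast Nat.pos_of_ne_zero (NeZero.ne d)
  set v : ℝ := (((l : ZMod d).val : ℕ) : ℝ) with hv
  have hvpos : 0 < v := by
    rw [hv]
    have : (l : ZMod d).val ≠ 0 := by
      rw [Ne, ZMod.val_eq_zero]; exact unit_ne hd l
    exact_mod_cast Nat.pos_of_ne_zero this
  have hvlt : v < d := by rw [hv]; exact_mod_cast ZMod.val_lt _
  have hneg : (((((-1 : (ZMod d)ˣ) * l : (ZMod d)ˣ) : ZMod d).val : ℕ) : ℝ) = d - v := by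
    have h := val_neg_unit hd l
    rw [neg_one_mul]
    have h2 : ((((((-l : (ZMod d)ˣ) : ZMod d).val : ℕ) : ℚ)) : ℝ) = ((d - (((l : ZMod d).val : ℕ) : ℚ) : ℚ) : ℝ) := by
      rw [h]
    push_cast at h2
    rw [hv]
    exact h2
  have e : gammaProd d (delta k 1 + delta k (-1)) l = (Real.pi / Real.sin (Real.pi * (v / d))) ^ k := by
    rw [gammaProd_add, gammaProd_delta hd, gammaProd_delta hd, ← mul_pow, hneg, one_mul]
    congr 1
    have h1 : 1 - (d - v) / d = v / d := by
      field_simp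
      ring
    rw [h1, mul_comm]
    exact Real.Gamma_mul_Gamma_one_sub (v / d)
  have hsin : 0 < Real.sin (Real.pi * (v / d)) := by
    apply Real.sin_pos_of_pos_of_lt_pi
    · positivity
    · have : v / d < 1 := (div_lt_one hd0).mpr hvlt
      nlinarith [Real.pi_pos]
  have e2 : ((gammaProd d (delta k 1 + delta k (-1)) l : ℝ) : ℂ) / ((Real.pi ^ k : ℝ) : ℂ) =
      (((Real.sin (Real.pi * (v / d)) : ℝ) : ℂ)⁻¹) ^ k := by
    rw [e]
    have hpi := Real.pi_ne_zero
    have hs := hsin.ne'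
    rw [← Complex.ofReal_div, ← Complex.ofReal_inv, ← Complex.ofReal_pow]
    congr 1
    rw [div_pow, inv_pow]
    field_simp
  rw [e2]
  refine IsAlgebraic.pow (IsAlgebraic.inv ?_) k
  have h3 : IsAlgebraic ℤ (Real.sin (((((l : ZMod d).val : ℕ) : ℚ) / (d : ℚ) : ℚ) * Real.pi)) :=
    Real.isAlgebraic_sin_rat_mul_pi _
  have h4 : IsAlgebraic ℚ (Real.sin (Real.pi * (v / d))) := by
    have e3 : Real.pi * (v / d) = (((((l : ZMod d).val : ℕ) : ℚ) / (d : ℚ) : ℚ) : ℝ) * Real.pi := by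
      push_cast
      rw [mul_comm]
    rw [e3]
    exact h3.extendScalars (by exact Int.cast_injective)
  exact h4.algebraMap

end Gamma

lemma sim_of_const {T : Periods} (hT : Facts T) {F : AbField} (hd : 1 < F.d) (k : ℕ)
    {ε : ZMod F.d → ℚ} (hε : IsEps F.d (fun _ => (k : ℤ)) ε) (l : (ZMod F.d)ˣ) :
    Sim ((gammaProd F.d ε l : ℝ) : ℂ) ((Real.pi ^ k : ℝ) : ℂ) := by
  have h0 := isEps_const (d := F.d) hd k
  have h1 : IsEps F.d 0 (ε + -(delta k 1 + delta k (-1))) := by
    have := isEps_add hε (isEps_neg h0)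
    have e : ((fun _ => (k : ℤ)) + -(fun _ => (k : ℤ)) : (ZMod F.d)ˣ → ℤ) = 0 := by
      funext x; simp
    rwa [e] at this
  have h2 := hT.koblitz_ogus F _ h1 l
  have e : ε = (ε + -(delta k 1 + delta k (-1))) + (delta k 1 + delta k (-1)) := by
    funext a
    simp only [Pi.add_apply, Pi.neg_apply]
    ring
  have h3 := sim_const (d := F.d) hd k l
  refine ⟨gammaProd_ne _ _, h3.2.1, ?_⟩
  rw [e, gammaProd_add, Complex.ofReal_mul, mul_div_assoc]
  exact h2.mul h3.2.2

/-! ### CM types -/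

/-- a function which separates the conjugate embeddings, if `F` is a CM field -/
lemma exists_rank (F : AbField) (hF : (-1 : (ZMod F.d)ˣ) ∉ F.U) :
    ∃ r : (ZMod F.d)ˣ → ℕ, (∀ l, ∀ u ∈ F.U, r (l * u) = r l) ∧ ∀ l, r l ≠ r (-l) := by
  classical
  let Q := (ZMod F.d)ˣ ⧸ F.U
  have : Finite Q := inferInstance
  obtain ⟨n, ⟨e⟩⟩ := Finite.exists_equiv_fin Q
  refine ⟨fun l => (e (QuotientGroup.mk l)).val, ?_, ?_⟩
  · intro l u hu
    have : (QuotientGroup.mk (l * u) : Q) = QuotientGroup.mk l := by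
      rw [QuotientGroup.mk_mul_of_mem _ hu]
    simp only [this]
  · intro l h
    have h1 := e.injective (Fin.ext h)
    have h2 : l⁻¹ * (-l) ∈ F.U := QuotientGroup.eq.mp h1
    rw [mul_neg, inv_mul_cancel] at h2
    exact hF h2

/-- the `i`-th CM type -/
def psi {F : AbField} (r : (ZMod F.d)ˣ → ℕ) (p : (ZMod F.d)ˣ → ℤ) (m : ℤ) (i : ℕ) : Set (ZMod F.d)ˣ :=
  {l | (r l < r (-l) ∧ (i : ℤ) < m - p l) ∨ (r (-l) < r l ∧ m - p (-l) ≤ i)}

lemma psi_isCMType {F : AbField} {r : (ZMod F.d)ˣ → ℕ} (h1 : ∀ l, ∀ u ∈ F.U, r (l * u) = r l)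
    (h2 : ∀ l, r l ≠ r (-l)) {p : (ZMod F.d)ˣ → ℤ} (h3 : ∀ l, ∀ u ∈ F.U, p (l * u) = p l) (m : ℤ) (i : ℕ) :
    IsCMType F (psi r p m i) := by
  constructor
  · intro l u hu
    have e1 := h1 l u hu
    have e2 : r (-(l * u)) = r (-l) := by rw [← neg_mul]; exact h1 _ u hu
    have e3 := h3 l u hu
    have e4 : p (-(l * u)) = p (-l) := by rw [← neg_mul]; exact h3 _ u hu
    simp only [psi, Set.mem_ofPred_eq, e1, e2, e3, e4]
  · intro l
    have h := h2 l
    simp only [psi, Set.mem_ofPred_eq, neg_neg]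
    rcases lt_or_gt_of_ne h with h | h
    · constructor
      · rintro (⟨_, h4⟩ | ⟨h4, _⟩)
        · rintro (⟨h5, _⟩ | ⟨_, h5⟩) <;> omega
        · omega
      · intro h4
        left
        refine ⟨h, ?_⟩
        by_contra h5
        exact h4 (Or.inr ⟨h, by omega⟩)
    · constructor
      · rintro (⟨h4, _⟩ | ⟨_, h4⟩)
        · omega
        · rintro (⟨_, h5⟩ | ⟨h5, _⟩) <;> omega
      · intro h4
        right
        refine ⟨h, ?_⟩
        by_contra h5
        exact h4 (Or.inl ⟨h, by omega⟩)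

lemma count_lt (m : ℕ) (c : ℤ) (h0 : 0 ≤ c) (h1 : c ≤ m) :
    ∑ i ∈ range m, (if (i : ℤ) < c then (1 : ℤ) else 0) = c := by
  rw [sum_ite, sum_const_zero, add_zero, sum_const, nsmul_one]
  obtain ⟨n, rfl⟩ := Int.eq_ofNat_of_zero_le h0
  have : (range m).filter (fun i : ℕ => (i : ℤ) < (n : ℤ)) = range n := by
    ext i
    simp only [mem_filter, mem_range]
    omega
  rw [this, card_range]

lemma count_ge (m : ℕ) (c : ℤ) (h0 : 0 ≤ c) (h1 : c ≤ m) :
    ∑ i ∈ range m, (if c ≤ (i : ℤ) then (1 : ℤ) else 0) = m - c := by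
  have h := count_lt m c h0 h1
  have h2 : ∑ i ∈ range m, (if c ≤ (i : ℤ) then (1 : ℤ) else 0) +
      ∑ i ∈ range m, (if (i : ℤ) < c then (1 : ℤ) else 0) = m := by
    rw [← sum_add_distrib]
    have : ∀ i ∈ range m, ((if c ≤ (i : ℤ) then (1 : ℤ) else 0) + (if (i : ℤ) < c then (1 : ℤ) else 0)) = 1 := by
      intro i _
      split_ifs <;> omega
    rw [sum_congr rfl this]
    simp
  omega

/-- `p + ∑ 1_{Ψ_i} = m` -/
lemma psi_sum {F : AbField} {r : (ZMod F.d)ˣ → ℕ} (h2 : ∀ l, r l ≠ r (-l)) {p : (ZMod F.d)ˣ → ℤ} (m : ℕ)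
    (hp : ∀ l, 0 ≤ p l) (hm : ∀ l, p l + p (-l) = m) (l : (ZMod F.d)ˣ) :
    ∑ i ∈ range m, Set.indicator (psi r p m i) (1 : (ZMod F.d)ˣ → ℤ) l = m - p l := by
  classical
  have a1 := hp l
  have a2 := hp (-l)
  have a3 := hm l
  simp only [Set.indicator_apply, Pi.one_apply, psi, Set.mem_ofPred_eq]
  rcases lt_or_gt_of_ne (h2 l) with h | h
  · refine Eq.trans ?_ (count_lt m (m - p l) (by omega) (by omega))
    refine sum_congr rfl fun i _ => ?_
    split_ifs with h3 h4 h4 <;> first | rfl | omega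
  · refine Eq.trans ?_ ((count_ge m (m - p (-l)) (by omega) (by omega)).trans (by omega))
    refine sum_congr rfl fun i _ => ?_
    split_ifs with h3 h4 h4 <;> first | rfl | omega

/-! ### Tensor products with abelian varieties -/

lemma tensor_many {T : Periods} (hT : Facts T) {F : AbField} (hd : 1 < F.d) (t : T.Tri F)
    (Ψ : ℕ → Set (ZMod F.d)ˣ) (hΨ : ∀ i, IsCMType F (Ψ i)) (n : ℕ) :
    ∃ (s : T.Tri F) (ε : ZMod F.d → ℚ), T.wt s = T.wt t + n ∧
      (∀ l, T.p s l = T.p t l + ∑ i ∈ range n, Set.indicator (Ψ i) (1 : (ZMod F.d)ˣ → ℤ) l) ∧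
      IsEps F.d (fun l => ∑ i ∈ range n, Set.indicator (Ψ i) (1 : (ZMod F.d)ˣ → ℤ) l) ε ∧
      ∀ l, Sim (T.P s l) (T.P t l * (gammaProd F.d ε l : ℝ)) := by
  induction n with
  | zero =>
    refine ⟨t, 0, by simp, by simp, ?_, ?_⟩
    · intro l; simp
    · intro l
      rw [gammaProd_zero]
      simpa using Sim.refl (hT.ne_zero t l)
  | succ n ih =>
    obtain ⟨s, ε, h1, h2, h3, h4⟩ := ih
    obtain ⟨a, a1, a2, a3⟩ := hT.anderson F (Ψ n) (hΨ n)
    obtain ⟨ε', he⟩ := hT.exists_eps hd a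
    obtain ⟨s', b1, b2, b3⟩ := hT.tensor s a
    refine ⟨s', ε + ε', by omega, ?_, ?_, ?_⟩
    · intro l
      rw [b2, h2, a2, sum_range_succ]
      ring
    · have e : (fun l => ∑ i ∈ range (n + 1), Set.indicator (Ψ i) (1 : (ZMod F.d)ˣ → ℤ) l) =
          (fun l => ∑ i ∈ range n, Set.indicator (Ψ i) (1 : (ZMod F.d)ˣ → ℤ) l) + T.p a := by
        funext l
        rw [Pi.add_apply, a2, sum_range_succ]
      rw [e]
      exact isEps_add h3 he
    · intro l
      rw [gammaProd_add, Complex.ofReal_mul, ← mul_assoc]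
      exact (b3 l).trans ((h4 l).mul (a3 ε' he l))

lemma powers_of_line {T : Periods} (hT : Facts T) {F : AbField} (hd : 1 < F.d) (n : ℕ) :
    ∃ s : T.Tri F, T.wt s = 2 * (n + 1) ∧ (∀ l, T.p s l = ((n + 1 : ℕ) : ℤ)) ∧
      ∀ l, Sim (T.P s l) ((Real.pi ^ (n + 1) : ℝ) : ℂ) := by
  obtain ⟨a, a1, a2, a3⟩ := hT.line F hd
  induction n with
  | zero => exact ⟨a, by omega, fun l => by simp [a2], fun l => by simpa using a3 l⟩
  | succ n ih =>
    obtain ⟨s, h1, h2, h3⟩ := ih
    obtain ⟨s', b1, b2, b3⟩ := hT.tensor s a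
    refine ⟨s', by omega, fun l => ?_, fun l => ?_⟩
    · rw [b2, h2, a2]; push_cast; ring
    · have e : ((Real.pi ^ (n + 1 + 1) : ℝ) : ℂ) = ((Real.pi ^ (n + 1) : ℝ) : ℂ) * ((Real.pi : ℝ) : ℂ) := by
        rw [← Complex.ofReal_mul, pow_succ]
      rw [e]
      exact (b3 l).trans ((h3 l).mul (a3 l))

lemma gd_of_hodge {T : Periods} (hT : Facts T) {F : AbField} (hd : 1 < F.d)
    (h : HodgeClasses T F) : GrossDeligne T F := by
  intro t ε hε l
  by_cases hF : (-1 : (ZMod F.d)ˣ) ∈ F.U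
  · -- `F` is totally real
    have e : ∀ l, T.p t (-l) = T.p t l := by
      intro l
      have := hT.inv t l (-1) hF
      rwa [mul_neg_one] at this
    have h2 : ∀ l, 2 * T.p t l = T.wt t := by
      intro l
      have := hT.hodge t l
      rw [e] at this
      omega
    obtain ⟨k, hk⟩ : ∃ k : ℕ, T.wt t = 2 * k := by
      have := h2 1
      have h0 := hT.nonneg t 1
      exact ⟨(T.p t 1).toNat, by omega⟩
    have h3 : ∀ l, T.p t l = k := by
      intro l
      have := h2 l
      omega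
    have h4 : T.p t = fun _ => (k : ℤ) := funext h3
    rw [h4] at hε
    exact (h t k hk h3 l).trans (sim_of_const hT hd k hε l).symm
  · -- `F` is a CM field
    obtain ⟨r, r1, r2⟩ := exists_rank F hF
    set m := T.wt t with hm
    obtain ⟨s, ε', s1, s2, s3, s4⟩ := tensor_many hT hd t (psi r (T.p t) m)
      (psi_isCMType r1 r2 (hT.inv t) m) m
    have hs : ∀ l, T.p s l = (m : ℤ) := by
      intro l
      rw [s2, psi_sum r2 m (hT.nonneg t) (hT.hodge t)]
      ring
    have h1 := h s m (by omega) hs l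
    have h2 : IsEps F.d (fun _ => (m : ℤ)) (ε + ε') := by
      have := isEps_add hε s3
      have e : (T.p t + fun l => ∑ i ∈ range m,
          Set.indicator (psi r (T.p t) m i) (1 : (ZMod F.d)ˣ → ℤ) l) = fun _ => (m : ℤ) := by
        funext l
        rw [Pi.add_apply, psi_sum r2 m (hT.nonneg t) (hT.hodge t)]
        ring
      rwa [e] at this
    have h3 := sim_of_const hT hd m h2 l
    rw [gammaProd_add, Complex.ofReal_mul] at h3
    exact Sim.cancel (hT.ne_zero t l) (gammaProd_ne _ _) (((s4 l).symm.trans h1).trans h3.symm)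

/-- **Gross-Deligne and Hodge classes.**  For every abelian number field `F ≠ ℚ` the Gross-Deligne conjecture for all
admissible triples over `F` holds if and only if the periods of the triples over `F` which consist of Hodge classes of
degree `2 k` are algebraic multiples of `π ^ k`, and if and only if the periods of the triples over `F` depend only on
the weight and the Hodge function, up to algebraic factors. -/
theorem result (T : Periods) (hT : Facts T) (F : AbField) (hF : 1 < F.d) :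
    (GrossDeligne T F ↔ HodgeClasses T F) ∧ (GrossDeligne T F ↔ OnlyHodge T F) := by
  have h12 : GrossDeligne T F → HodgeClasses T F := by
    intro h t k _ hp l
    have e : T.p t = fun _ => (k : ℤ) := funext hp
    have h0 := isEps_const (d := F.d) hF k
    exact (h t _ (by rw [e]; exact h0) l).trans (sim_const hF k l)
  have h21 := gd_of_hodge hT hF
  refine ⟨⟨h12, h21⟩, ⟨fun h t t' _ hp l => ?_, fun h => h21 ?_⟩⟩
  · obtain ⟨ε, hε⟩ := hT.exists_eps hF t
    have e : T.p t = T.p t' := funext hp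
    exact (h t ε hε l).trans (h t' ε (by rw [← e]; exact hε) l).symm
  · intro t k hw hp l
    rcases k with _ | n
    · have := hT.zero t (by omega) l
      simpa using this
    · obtain ⟨s, s1, s2, s3⟩ := powers_of_line hT hF n
      exact (h t s (by omega) (fun l => by rw [hp, s2]) l).trans (s3 l)

end Pool.Agent.Results.MP_b23d8d_ag.HodgeClassCase
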