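import Pool.Agent.U672.HD.Main

/-!
# The Gross-Deligne conjecture for schemes built from systems of equations with few terms

Let `S` be the semisimple tensor category of the pure polarizable Hodge-de Rham structures over `ℚ̄`: a
rational vector space, a filtered `ℚ̄`-vector space and a comparison isomorphism over `ℂ`, which form a
polarizable Hodge structure (or a direct sum of such structures of various weights), with a polarization
that is compatible with the comparison. For a separated scheme `X` of finite type over `ℚ̄` let
`H n w X = gr^W_w H^n_c(X)` be the graded pieces of the cohomology with compact support; if `X` is smooth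
and projective, then `H m m X = H^m(X)`. These objects enter in the form of their known properties
(`Facts`). The admissible triples `(R, F, ι)` of the problem in `H^m(X)` are the direct factors `R` of
`H^m(X)` in `S` with an action of an abelian number field `F` of degree `dim R`.

It is known (Deligne, Anderson; see Gross) that the conjecture holds for the admissible triples in the
cohomology of abelian varieties: twist by abelian varieties with complex multiplication to reach Hodge classes,
which are absolute Hodge classes. So it holds for all direct factors of objects of *abelian type* (`Ab`), which
are obtained from the cohomology of curves by sums, direct factors, tensor products and Tate twists. This known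
theorem is a hypothesis.

**Theorem.** The cohomology of `X` is of abelian type, and the relation of Gross and Deligne holds for all
admissible triples in it, for all schemes `X`, of any dimension, which can be obtained from the following
schemes by cutting and pasting, products of affine schemes and quotients by finite free coverings
(`Constructed 1`):
* the closed subschemes of affine spaces defined by a system `G` of excess at most two and polynomials `H`
  with any numbers of terms whose exponents are independent modulo the differences of the exponents
  of `G`. Here the *excess* of a system of polynomials is the sum of (number of terms - 2) over its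
  members with at least three terms. For instance all hypersurfaces with at most four terms, and all
  hypersurfaces with affinely independent exponents, singular or not;
* the schemes `∑ f_j (x_j) = g (y)`, where the `f_j` are polynomials in separate variables, each of them
  quasi-homogeneous in at most two variables or a trilinear form with a block of at most three
  variables, and `g` is a function on an affine scheme of dimension at most one;
* all schemes of dimension at most one;
* all schemes whose cohomology is of abelian type, for instance abelian varieties and K3 surfaces (for the
  latter this is due to Deligne).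

This is known for Fermat varieties and their quotients (Gross, Deligne), so for smooth projective
hypersurfaces `∑ a_i x^(m_i) = 0` with as many terms as variables.
-/

set_option autoImplicit false

open CategoryTheory MonoidalCategory AlgebraicGeometry Finset Pool.Agent.TH137.DG
  Pool.Agent.Y116.UV Pool.Agent.Z125.UN Pool.Agent.U672.SF Pool.Agent.U672.HD

namespace Pool.Agent.Results.MP_b23d8d_ag.SystemsOfFewTerms

universe v u

/-- `x` and `y` are not zero and `x / y` is an algebraic number. -/
def Sim (x y : ℂ) : Prop := x ≠ 0 ∧ y ≠ 0 ∧ IsAlgebraic ℚ (x / y)

/-- An abelian number field `F` of conductor `d`: the subfield of `ℚ(μ_d)` fixed by the subgroup `U` of `(ℤ/d)ˣ`,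
which is not contained in `ℚ(μ_e)` for a proper divisor `e` of `d`. The embeddings of `F` are the classes of
`(ℤ/d)ˣ` modulo `U`. -/
structure AbField where
  d : ℕ
  pos : 0 < d
  U : Subgroup (ZMod d)ˣ
  conductor : ∀ (e : ℕ) (h : e ∣ d), e ≠ d → ∃ x : (ZMod d)ˣ, ZMod.unitsMap h x = 1 ∧ x ∉ U

instance (F : AbField) : NeZero F.d := ⟨F.pos.ne'⟩

/-- The product of the `Γ(1 - a/d) ^ ε(a λ⁻¹)` over all `0 < a < d`. -/
noncomputable def gammaProd (d : ℕ) [NeZero d] (ε : ZMod d → ℚ) (l : (ZMod d)ˣ) : ℝ :=
  ∏ a ∈ univ.filter (fun a : ZMod d => a ≠ 0),
    Real.Gamma (1 - (a.val : ℝ) / d) ^ ((ε (a * ((l⁻¹ : (ZMod d)ˣ) : ZMod d)) : ℚ) : ℝ)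

/-- `ε` is one of the functions `ℤ/d → ℚ` which belong to the Hodge function `p`:
`d p(λ) = ∑_{0 < a < d} ε(a) ⟨λ a⟩` for all `λ`. -/
def IsEps (d : ℕ) [NeZero d] (p : (ZMod d)ˣ → ℤ) (ε : ZMod d → ℚ) : Prop :=
  ∀ l : (ZMod d)ˣ, (d : ℚ) * (p l : ℚ) =
    ∑ a ∈ univ.filter (fun a : ZMod d => a ≠ 0), ε a * ((((l : ZMod d) * a).val : ℕ) : ℚ)

/-- The periods of the objects of `S`: the embeddings `t : Tri F R` of an abelian number field `F` of degree
`dim R` in the endomorphism ring of the object `R` of `S`; the Hodge function `p t` and representatives
`P t` of the periods of the admissible triple `(R, F, t)`. -/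
structure Periods (S : Type u) where
  Tri : AbField → S → Type
  p : {F : AbField} → {R : S} → Tri F R → (ZMod F.d)ˣ → ℤ
  P : {F : AbField} → {R : S} → Tri F R → (ZMod F.d)ˣ → ℂ

/-- The relation of Gross and Deligne for the admissible triple `(R, F, t)`. -/
def Periods.Relation {S : Type u} (Per : Periods S) {F : AbField} {R : S} (t : Per.Tri F R) : Prop :=
  ∀ ε, IsEps F.d (Per.p t) ε → ∀ l, Sim (Per.P t l) (gammaProd F.d ε l : ℝ)

/-- The conjecture of Gross and Deligne for all admissible triples `(R, F, t)` in `M`, that is for all direct
factors `R` of `M`. -/
def GrossDeligne {S : Type u} [Category.{v} S] (Per : Periods S) (M : S) : Prop :=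
  ∀ R : S, Nonempty (Retract R M) → ∀ (F : AbField) (t : Per.Tri F R), Per.Relation t

/-- **Theorem.** Assume the conjecture of Gross and Deligne for the objects of abelian type (this is known). Let
`X` be a scheme which is constructed from systems of equations of excess at most two with further equations
with independent exponents, schemes `∑ f_j (x_j) = g (y)` over curves, schemes of dimension at most one and
schemes with cohomology of abelian type. Then the cohomology of `X` is of abelian type, and the conjecture of
Gross and Deligne holds for all admissible triples in it. -/
theorem result {S : Type u} [Category.{v} S] [MonoidalCategory S] [Preadditive S]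
    (T : U672.HD.Data (AlgebraicClosure ℚ) S) (hT : U672.HD.Facts T) (Per : Periods S)
    (known : ∀ M, U672.HD.Ab T M → GrossDeligne Per M) (X : Sch (AlgebraicClosure ℚ))
    (hX : Constructed 1 (fun Y => ∀ n w : ℤ, U672.HD.Ab T (T.H n w Y)) X) (n w : ℤ) :
    U672.HD.Ab T (T.H n w X) ∧ GrossDeligne Per (T.H n w X) :=
  have h := constructed_ab hT X hX n w
  ⟨h, known _ h⟩

end Pool.Agent.Results.MP_b23d8d_ag.SystemsOfFewTerms
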